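import Pool.Agent.Y443.KZ.Fam
import Pool.Agent.Y443.KZ.Low

/-!
# Weigel's inequality for Koszul algebras: exactly the cohomological dimensions one and two

Weigel asked whether `b_2(A) ≤ (n-1)/(2n) * b_1(A)^2` for every Koszul algebra `A` of finite
cohomological dimension `n ≥ 1`. Over every field the inequality holds for all Koszul algebras of
cohomological dimension `n` if and only if `n ≤ 2`. For every `n ≥ 3` there is a Koszul algebra of
cohomological dimension `n` with `b_1 = 2 n + 1` and `b_2 = 2 n ^ 2 - 1`, for which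
`2 n b_2 = (n - 1) b_1 ^ 2 + (n + 1)`.
-/

set_option autoImplicit false

universe u

open CategoryTheory

namespace Pool.Agent.Results.MP_2e24ef_al.EveryDimension

open Pool.Agent.TH884.Kz

/-- First part: for `n ≥ 1` Weigel's inequality holds for all Koszul algebras of cohomological
dimension `n` if and only if `n ≤ 2`. Second part: the Koszul algebras which violate it, for
every `n ≥ 3`. -/
theorem result (k : Type u) [Field k] :
    (∀ n : ℕ, 1 ≤ n →
      ((∀ Q : QuadData k, Q.IsKoszul → IsGreatest {i : ℕ | Q.betti i ≠ 0} n →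
          2 * n * Q.betti 2 ≤ (n - 1) * Q.betti 1 ^ 2) ↔ n ≤ 2)) ∧
    (∀ n : ℕ, 3 ≤ n → ∃ Q : QuadData k, Q.IsKoszul ∧
      (∀ i, Module.Finite k (Abelian.Ext Q.triv Q.triv i)) ∧
      IsGreatest {i : ℕ | Q.betti i ≠ 0} n ∧
      Q.betti 1 = 2 * n + 1 ∧ Q.betti 2 = 2 * n ^ 2 - 1 ∧
      2 * n * Q.betti 2 = (n - 1) * Q.betti 1 ^ 2 + (n + 1)) := by
  refine ⟨fun n hn => ⟨fun h => ?_, fun h2 Q hQ hg => ?_⟩, fun n hn => ?_⟩
  · by_contra hlt
    obtain ⟨Q, hQ, hg, -, -, h5⟩ := Pool.Agent.Y443.KZ.exists_family k n (by omega)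
    have := h Q hQ hg
    omega
  · have hz : ∀ i, n < i → Q.betti i = 0 := fun i hi => by
      by_contra h0
      exact absurd (hg.2 h0) (by omega)
    have hn' : n = 1 ∨ n = 2 := by omega
    rcases hn' with rfl | rfl
    · rw [hz 2 (by norm_num)]
      simp
    · have := Pool.Agent.Y443.KZ.golod_shafarevich hQ (hz 3 (by norm_num))
      norm_num
      exact this
  · obtain ⟨Q, hQ, hg, h3, h4, h5⟩ := Pool.Agent.Y443.KZ.exists_family k n hn
    exact ⟨Q, hQ, finite_ext hQ, hg, h3, h4, h5.symm⟩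

end Pool.Agent.Results.MP_2e24ef_al.EveryDimension
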